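import Mathlib

/-! Exponentially many nearly orthogonal sign vectors. -/

set_option autoImplicit false

open Finset

namespace Pool.Agent.Y767.SH

/-- sign -/
noncomputable def sg (b : Bool) : ℝ := if b then 1 else -1

lemma sg_mul_self (b : Bool) : sg b * sg b = 1 := by cases b <;> simp [sg]

/-- inner product of sign vectors -/
noncomputable def ip {n : ℕ} (x y : Fin n → Bool) : ℝ := ∑ k, sg (x k) * sg (y k)

lemma ip_comm {n : ℕ} (x y : Fin n → Bool) : ip x y = ip y x := by
  unfold ip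
  exact sum_congr rfl fun k _ => mul_comm _ _

lemma ip_self {n : ℕ} (x : Fin n → Bool) : ip x x = n := by
  unfold ip
  simp [sg_mul_self]

lemma sum_exp {n : ℕ} (x : Fin n → Bool) (l : ℝ) :
    ∑ y : Fin n → Bool, Real.exp (l * ip x y) = (2 * Real.cosh l) ^ n := by
  have h1 : ∀ y : Fin n → Bool,
      Real.exp (l * ip x y) = ∏ k, Real.exp (l * (sg (x k) * sg (y k))) := by
    intro y
    rw [ip, mul_sum, Real.exp_sum]
  simp_rw [h1]
  have h2 := (prod_univ_sum (fun _ : Fin n => (univ : Finset Bool))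
    (fun k b => Real.exp (l * (sg (x k) * sg b)))).symm
  rw [Fintype.piFinset_univ] at h2
  rw [h2]
  have h3 : ∀ k, ∑ b : Bool, Real.exp (l * (sg (x k) * sg b)) = 2 * Real.cosh l := by
    intro k
    rw [Fintype.sum_bool, Real.cosh_eq]
    cases x k
    · simp [sg]; ring
    · simp [sg]; ring
  rw [prod_congr rfl fun k _ => h3 k]
  simp

lemma cosh_pow_le (n : ℕ) (l : ℝ) :
    (2 * Real.cosh l) ^ n ≤ 2 ^ n * Real.exp (n * (l ^ 2 / 2)) := by
  rw [mul_pow, Real.exp_nat_mul]
  have h := Real.cosh_le_exp_half_sq l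
  have h0 : 0 ≤ Real.cosh l := (Real.cosh_pos l).le
  gcongr

lemma half_tail {n : ℕ} (x : Fin n → Bool) (e : ℝ) (he : e = 1 ∨ e = -1) :
    ((univ.filter fun y : Fin n → Bool => (n:ℝ) / 3 ≤ e * ip x y).card : ℝ) ≤
      2 ^ n * Real.exp (-(n / 18)) := by
  set B := univ.filter fun y : Fin n → Bool => (n:ℝ) / 3 ≤ e * ip x y with hB
  have h1 : (B.card : ℝ) * Real.exp (n / 9) ≤ ∑ y : Fin n → Bool, Real.exp (e / 3 * ip x y) := by
    calc (B.card : ℝ) * Real.exp (n / 9) = ∑ _y ∈ B, Real.exp (n / 9) := by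
          rw [sum_const, nsmul_eq_mul]
      _ ≤ ∑ y ∈ B, Real.exp (e / 3 * ip x y) := by
          apply sum_le_sum
          intro y hy
          rw [hB, mem_filter] at hy
          apply Real.exp_le_exp.2
          linarith [hy.2]
      _ ≤ ∑ y : Fin n → Bool, Real.exp (e / 3 * ip x y) :=
          sum_le_sum_of_subset_of_nonneg (subset_univ _) fun y _ _ => (Real.exp_pos _).le
  rw [sum_exp] at h1
  have h2 := cosh_pow_le n (e / 3)
  have he2 : e ^ 2 = 1 := by rcases he with h | h <;> rw [h] <;> norm_num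
  have h3 : (n:ℝ) * ((e / 3) ^ 2 / 2) = n / 18 := by
    rw [div_pow, he2]; ring
  rw [h3] at h2
  have h4 : (B.card : ℝ) * Real.exp (n / 9) ≤ 2 ^ n * Real.exp (n / 18) := h1.trans h2
  have h5 : Real.exp (-((n:ℝ) / 18)) = Real.exp (n / 18) / Real.exp (n / 9) := by
    rw [← Real.exp_sub]
    congr 1
    ring
  rw [h5, mul_div_assoc', le_div_iff₀ (Real.exp_pos _)]
  exact h4

lemma tail {n : ℕ} (x : Fin n → Bool) :
    ((univ.filter fun y : Fin n → Bool => (n:ℝ) / 3 ≤ |ip x y|).card : ℝ) ≤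
      2 * (2 ^ n * Real.exp (-(n / 18))) := by
  have h1 := half_tail x 1 (Or.inl rfl)
  have h2 := half_tail x (-1) (Or.inr rfl)
  have h3 : (univ.filter fun y : Fin n → Bool => (n:ℝ) / 3 ≤ |ip x y|) ⊆
      (univ.filter fun y : Fin n → Bool => (n:ℝ) / 3 ≤ 1 * ip x y) ∪
      (univ.filter fun y : Fin n → Bool => (n:ℝ) / 3 ≤ -1 * ip x y) := by
    intro y hy
    rw [mem_filter] at hy
    rw [mem_union, mem_filter, mem_filter]
    rcases le_abs.1 hy.2 with h | h
    · exact Or.inl ⟨mem_univ _, by linarith⟩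
    · exact Or.inr ⟨mem_univ _, by linarith⟩
  have h4 := (card_le_card h3).trans (card_union_le _ _)
  have h5 : ((univ.filter fun y : Fin n → Bool => (n:ℝ) / 3 ≤ |ip x y|).card : ℝ) ≤
      ((univ.filter fun y : Fin n → Bool => (n:ℝ) / 3 ≤ 1 * ip x y).card : ℝ) +
      ((univ.filter fun y : Fin n → Bool => (n:ℝ) / 3 ≤ -1 * ip x y).card : ℝ) := by
    exact_mod_cast h4
  linarith

/-- exponentially many nearly orthogonal sign vectors -/
theorem exists_signs (n : ℕ) : ∃ (m : ℕ) (v : Fin m → Fin n → Bool),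
    Real.exp (n / 18) / 2 ≤ m ∧ ∀ i j, i ≠ j → |ip (v i) (v j)| < n / 3 := by
  classical
  let Q : Finset (Fin n → Bool) → Prop := fun S => ∀ x ∈ S, ∀ y ∈ S, x ≠ y → |ip x y| < n / 3
  obtain ⟨S, hS, hmax⟩ := exists_max_image (univ.filter Q : Finset (Finset (Fin n → Bool)))
    card ⟨∅, by simp [Q]⟩
  rw [mem_filter] at hS
  have hcov : (univ : Finset (Fin n → Bool)) ⊆
      S.biUnion fun x => univ.filter fun y => (n:ℝ) / 3 ≤ |ip x y| := by
    intro y _
    rw [mem_biUnion]
    by_cases hy : y ∈ S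
    · refine ⟨y, hy, mem_filter.2 ⟨mem_univ _, ?_⟩⟩
      rw [ip_self, abs_of_nonneg (by positivity)]
      have : (0:ℝ) ≤ n := by positivity
      linarith
    · by_contra hcon
      push Not at hcon
      have h1 : ∀ x ∈ S, |ip x y| < n / 3 := by
        intro x hx
        have h2 := hcon x hx
        rw [mem_filter] at h2
        push Not at h2
        exact h2 (mem_univ _)
      have h2 : Q (insert y S) := by
        intro a ha b hb hab
        rw [mem_insert] at ha hb
        rcases ha with rfl | ha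
        · rcases hb with rfl | hb
          · exact absurd rfl hab
          · rw [ip_comm]; exact h1 b hb
        · rcases hb with rfl | hb
          · exact h1 a ha
          · exact hS.2 a ha b hb hab
      have h3 := hmax (insert y S) (mem_filter.2 ⟨mem_univ _, h2⟩)
      rw [card_insert_of_notMem hy] at h3
      omega
  have hcard := (card_le_card hcov).trans card_biUnion_le
  have h1 : ((2:ℝ) ^ n) ≤ S.card * (2 * (2 ^ n * Real.exp (-(n / 18)))) := by
    have h2 : ((univ : Finset (Fin n → Bool)).card : ℝ) = 2 ^ n := by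
      rw [card_univ, Fintype.card_fun]
      simp
    rw [← h2]
    calc ((univ : Finset (Fin n → Bool)).card : ℝ)
        ≤ ∑ x ∈ S, ((univ.filter fun y : Fin n → Bool => (n:ℝ) / 3 ≤ |ip x y|).card : ℝ) := by
          exact_mod_cast hcard
      _ ≤ ∑ _x ∈ S, (2 * (2 ^ n * Real.exp (-((n:ℝ) / 18)))) := sum_le_sum fun x _ => tail x
      _ = S.card * (2 * (2 ^ n * Real.exp (-(n / 18)))) := by rw [sum_const, nsmul_eq_mul]
      _ = _ := by rw [h2]
  have h2n : (0:ℝ) < 2 ^ n := by positivity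
  have h3 : (1:ℝ) ≤ S.card * (2 * Real.exp (-(n / 18))) := by
    have : (2:ℝ) ^ n * 1 ≤ 2 ^ n * (S.card * (2 * Real.exp (-(n / 18)))) := by
      calc (2:ℝ) ^ n * 1 = 2 ^ n := mul_one _
        _ ≤ _ := h1
        _ = _ := by ring
    exact le_of_mul_le_mul_left this h2n
  refine ⟨S.card, fun i => (S.equivFin.symm i).1, ?_, ?_⟩
  · have h4 : Real.exp ((n:ℝ) / 18) * Real.exp (-(n / 18)) = 1 := by
      rw [← Real.exp_add, add_neg_cancel, Real.exp_zero]
    have h5 := Real.exp_pos ((n:ℝ) / 18)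
    have h6 := mul_le_mul_of_nonneg_left h3 h5.le
    have h7 : Real.exp ((n:ℝ) / 18) * (S.card * (2 * Real.exp (-(n / 18)))) = 2 * S.card := by
      calc Real.exp ((n:ℝ) / 18) * (S.card * (2 * Real.exp (-(n / 18))))
          = (Real.exp ((n:ℝ) / 18) * Real.exp (-(n / 18))) * (2 * S.card) := by ring
        _ = 2 * S.card := by rw [h4, one_mul]
    rw [h7] at h6
    linarith
  · intro i j hij
    apply hS.2 _ (S.equivFin.symm i).2 _ (S.equivFin.symm j).2
    intro h
    exact hij (S.equivFin.symm.injective (Subtype.ext h))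

end Pool.Agent.Y767.SH
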